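import Pool.Agent.H949Z.Gro.Main

set_option autoImplicit false

namespace Pool.Agent.Results.MP_4c94d3_al.ANoGapFG

/-- Q1 fails even for a finitely generated subgroup `H`. -/
theorem result : ∃ (G : Type) (_ : Group G) (H : Subgroup G) (S : Finset G),
    H ≠ ⊥ ∧ H.FG ∧ Subgroup.closure (S : Set G) = ⊤ ∧
    (∃ f : Monoid.Coprod (↥H) (Multiplicative ℕ) →* G,
      Function.Injective f ∧ f.comp Monoid.Coprod.inl = H.subtype) ∧
    Filter.limsup (fun n : ℕ => ((Set.ncard {g : G | g ∈ H ∧ ∃ l : List G, l.length ≤ n ∧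
        (∀ x ∈ l, x ∈ S ∨ x⁻¹ ∈ S) ∧ l.prod = g} : ℕ) : ℝ) ^ ((1 : ℝ) / (n : ℝ))) Filter.atTop =
      Filter.limsup (fun n : ℕ => ((Set.ncard {g : G | ∃ l : List G, l.length ≤ n ∧
        (∀ x ∈ l, x ∈ S ∨ x⁻¹ ∈ S) ∧ l.prod = g} : ℕ) : ℝ) ^ ((1 : ℝ) / (n : ℝ))) Filter.atTop :=
  Pool.Agent.H949Z.Gro.main

end Pool.Agent.Results.MP_4c94d3_al.ANoGapFG
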